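import Pool.Agent.Y462.AR.Stm2

/-!
# AR2-POW: powers of a `2 × 2` matrix by quotients of sines, and the braid relation
-/

set_option autoImplicit false

namespace Pool.Agent.Y249.AR

open Pool.Agent.Y462.AR

theorem alt_even {G : Type} [Group G] (k : ℕ) (x y : G) : alt (2 * k) x y = (x * y) ^ k := by
  induction k with
  | zero => rw [mul_zero, pow_zero, alt]
  | succ k ih =>
    rw [show 2 * (k + 1) = 2 * k + 1 + 1 by ring, alt, alt, ih, pow_succ', mul_assoc]

theorem alt_odd {G : Type} [Group G] (k : ℕ) (x y : G) :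
    alt (2 * k + 1) x y = x * (y * x) ^ k := by
  rw [alt, alt_even]

theorem tau_ap (l p q : ℝ) : tau l (p, q) = (p + l * q, q) := rfl

theorem sig_ap (l p q : ℝ) : sig l (p, q) = (p, q - l * p) := rfl

theorem ts_ap (l p q : ℝ) : (tau l * sig l) (p, q) = ((1 - l ^ 2) * p + l * q, q - l * p) := by
  rw [Equiv.Perm.mul_apply]
  change (p + l * (q - l * p), q - l * p) = _
  ext
  · simp only
    ring
  · rfl

theorem pow_ap (hU : S_U) (m : ℕ) (hm : 2 ≤ m) (i : ℕ) (p q : ℝ) :
    ((tau (lam m) * sig (lam m)) ^ i) (p, q) =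
    ((-1) ^ i * (U m (2 * i + 1) * p - U m (2 * i) * q),
      (-1) ^ i * (U m (2 * i) * p - U m (2 * i - 1) * q)) := by
  obtain ⟨hrec, hU0, hU1, -, -, -, hneg, -⟩ := hU m hm
  induction i generalizing p q with
  | zero =>
    have h1 : U m (-1) = -1 := by
      rw [hneg, hU1]
    ext
    · simp [hU0, hU1]
    · simp [hU0, h1]
  | succ i ih =>
    rw [pow_succ, Equiv.Perm.mul_apply, ts_ap, ih]
    have h1 := hrec (2 * (i : ℤ))
    have h2 := hrec (2 * (i : ℤ) + 1)
    have h3 := hrec (2 * (i : ℤ) + 2)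
    rw [show 2 * (i : ℤ) + 1 + 1 = 2 * i + 2 by ring, show 2 * (i : ℤ) + 1 - 1 = 2 * i by ring] at h2
    rw [show 2 * (i : ℤ) + 2 + 1 = 2 * i + 3 by ring, show 2 * (i : ℤ) + 2 - 1 = 2 * i + 1 by ring]
      at h3
    push_cast
    rw [show 2 * ((i : ℤ) + 1) + 1 = 2 * i + 3 by ring, show 2 * ((i : ℤ) + 1) = 2 * i + 2 by ring,
      show 2 * (i : ℤ) + 2 - 1 = 2 * i + 1 by ring]
    ext
    · simp only
      rw [h3, h2, pow_succ]
      ring
    · simp only
      rw [h2, h1, pow_succ]
      ring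

theorem t_pow (hU : S_U) : S_POW := by
  intro m hm
  refine ⟨pow_ap hU m hm, ?_⟩
  obtain ⟨hrec, hU0, hU1, hUm, -, hadd, hneg, -⟩ := hU m hm
  have hU2 : U m 2 = lam m := by
    have := hrec 1
    rw [show (1 : ℤ) + 1 = 2 by norm_num, show (1 : ℤ) - 1 = 0 by norm_num, hU0, hU1] at this
    rw [this]; ring
  have hm1 : U m (m + 1) = -1 := by rw [hadd, hU1]
  have hm1' : U m (m - 1) = 1 := by
    rw [sub_eq_add_neg, hadd, hneg, hU1, neg_neg]
  have hm2 : U m (m - 2) = lam m := by
    rw [sub_eq_add_neg, hadd, hneg, hU2, neg_neg]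
  set l := lam m with hl
  rcases Nat.even_or_odd' m with ⟨k, hk | hk⟩
  · have hmk : (2 * (k : ℤ)) = m := by rw [hk]; push_cast; ring
    have hE : alt m (tau l) (sig l) = (tau l * sig l) ^ k := by
      conv_lhs => rw [hk]
      exact alt_even k _ _
    have hE' : alt m (sig l) (tau l) = (tau l)⁻¹ * (tau l * sig l) ^ k * tau l := by
      conv_lhs => rw [hk]
      rw [alt_even]
      have : sig l * tau l = (tau l)⁻¹ * (tau l * sig l) * ((tau l)⁻¹)⁻¹ := by group
      rw [this, conj_pow, inv_inv]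
    have hap : ∀ p q : ℝ, ((tau l * sig l) ^ k) (p, q) = ((-1) ^ k * (-p), (-1) ^ k * (-q)) := by
      intro p q
      rw [pow_ap hU m hm k p q, hmk, hm1, hUm, hm1']
      ext
      · simp only
        ring
      · simp only
        ring
    rw [hE, hE', eq_comm, mul_assoc, inv_mul_eq_iff_eq_mul]
    apply Equiv.ext
    rintro ⟨p, q⟩
    rw [Equiv.Perm.mul_apply, Equiv.Perm.mul_apply, tau_ap, hap, hap, tau_ap]
    ext
    · simp only
      ring
    · rfl
  · have hmk : (2 * (k : ℤ) + 1) = m := by rw [hk]; push_cast; ring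
    have hmk1 : (2 * (k : ℤ)) = m - 1 := by rw [← hmk]; ring
    have hmk2 : (m : ℤ) - 1 - 1 = m - 2 := by ring
    have hE : alt m (tau l) (sig l) = (tau l * sig l) ^ k * tau l := by
      conv_lhs => rw [hk]
      rw [alt_odd]
      have : sig l * tau l = (tau l)⁻¹ * (tau l * sig l) * ((tau l)⁻¹)⁻¹ := by group
      rw [this, conj_pow, inv_inv]
      group
    have hE' : alt m (sig l) (tau l) = sig l * (tau l * sig l) ^ k := by
      conv_lhs => rw [hk]
      rw [alt_odd]
    have hap : ∀ p q : ℝ, ((tau l * sig l) ^ k) (p, q) =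
        ((-1) ^ k * (-q), (-1) ^ k * (p - l * q)) := by
      intro p q
      rw [pow_ap hU m hm k p q, hmk, hmk1, hmk2, hUm, hm1', hm2]
      ext
      · simp only
        ring
      · simp only
        ring
    rw [hE, hE']
    apply Equiv.ext
    rintro ⟨p, q⟩
    rw [Equiv.Perm.mul_apply, Equiv.Perm.mul_apply, tau_ap, hap, hap, sig_ap]
    ext
    · rfl
    · simp only
      ring

end Pool.Agent.Y249.AR
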